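import Pool.Agent.Helper92.BM.TExt

set_option autoImplicit false

namespace Pool.Agent.Helper92.BM

open TExt

variable {B W : Type*} [Group W] {M : CoxeterMatrix B} (cs : CoxeterSystem M W)

/-- The canonical map from the Artin group to the Coxeter group. -/
def Artin.toCox : Artin M →* W :=
  Artin.lift cs.simple (fun i j =>
    alt_comm_of_pow (cs.simple_mul_simple_self i) (cs.simple_mul_simple_self j)
      (cs.simple_mul_simple_pow i j))

@[simp] lemma Artin.toCox_gen (i : B) : Artin.toCox cs (Artin.gen M i) = cs.simple i := by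
  simp [Artin.toCox]

lemma Artin.toCox_surjective : Function.Surjective (Artin.toCox cs) := by
  rw [← MonoidHom.range_eq_top, eq_top_iff, ← cs.subgroup_closure_range_simple,
    Subgroup.closure_le]
  rintro _ ⟨i, rfl⟩
  exact ⟨Artin.gen M i, Artin.toCox_gen cs i⟩

/-- A homomorphism to the integers takes the same value on generators joined by an odd relation. -/
lemma Artin.hom_odd (μ : Artin M →* Multiplicative ℤ) {i j : B} (h : Odd (M i j)) :
    (μ (Artin.gen M i)).toAdd = (μ (Artin.gen M j)).toAdd := by
  obtain ⟨k, hk⟩ := h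
  have h1 := congrArg μ (Artin.rel (M := M) i j)
  rw [map_alt, map_alt, hk, alt_mul_two_add_one, alt_mul_two_add_one,
    mul_comm (μ (Artin.gen M j)) (μ (Artin.gen M i))] at h1
  have h2 := mul_left_cancel h1
  rw [h2]

/-- The cocycle homomorphism attached to a homomorphism to the integers. -/
noncomputable def cocyc (μ : Artin M →* Multiplicative ℤ) : Artin M →* TExt ℤ W :=
  Artin.lift (fun i => el (μ (Artin.gen M i)).toAdd (cs.simple i)) (fun i j =>
    alt_el_comm (cs.simple_mul_simple_self i) (cs.simple_mul_simple_self j)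
      (cs.simple_mul_simple_pow i j) _ _ (Artin.hom_odd μ))

@[simp] lemma cocyc_gen (μ : Artin M →* Multiplicative ℤ) (i : B) :
    cocyc cs μ (Artin.gen M i) = el (μ (Artin.gen M i)).toAdd (cs.simple i) := by
  simp [cocyc]

@[simp] lemma cocyc_w (μ : Artin M →* Multiplicative ℤ) (x : Artin M) :
    (cocyc cs μ x).w = Artin.toCox cs x := by
  have : (TExt.toW).comp (cocyc cs μ) = Artin.toCox cs := by
    apply Artin.hom_ext
    intro i
    simp
  exact DFunLike.congr_fun this x

lemma cocyc_total (μ : Artin M →* Multiplicative ℤ) (x : Artin M) :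
    ((cocyc cs μ x).v.sum fun _ c => c) = (μ x).toAdd := by
  have : (TExt.total).comp (cocyc cs μ) = μ := by
    apply Artin.hom_ext
    intro i
    rw [MonoidHom.comp_apply, cocyc_gen, total_apply, el_v, Finsupp.sum_single_index rfl]
    rfl
  have h := DFunLike.congr_fun this x
  rw [← h]
  rfl

/-- The support of the cocycle consists of conjugates of simple reflections on which `μ ≠ 0`. -/
lemma cocyc_support (μ : Artin M →* Multiplicative ℤ) (x : Artin M) (r : W)
    (hr : (cocyc cs μ x).v r ≠ 0) :
    ∃ (i : B) (w : W), μ (Artin.gen M i) ≠ 1 ∧ r = w * cs.simple i * w⁻¹ := by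
  classical
  induction x using Artin.induction generalizing r with
  | one => simp at hr
  | gen i =>
    rw [cocyc_gen, el_v] at hr
    rw [Finsupp.single_apply] at hr
    split_ifs at hr with h
    · refine ⟨i, 1, ?_, by simp [h]⟩
      intro h1
      rw [h1] at hr
      exact hr rfl
    · exact absurd rfl hr
  | mul x y hx hy =>
    rw [map_mul, mul_v, Finsupp.add_apply] at hr
    by_cases h1 : (cocyc cs μ x).v r = 0
    · rw [h1, zero_add, act_apply] at hr
      obtain ⟨i, w, hi, hw⟩ := hy _ hr
      refine ⟨i, (cocyc cs μ x).w * w, hi, ?_⟩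
      have : r = (cocyc cs μ x).w * ((cocyc cs μ x).w⁻¹ * r * (cocyc cs μ x).w) *
          (cocyc cs μ x).w⁻¹ := by group
      rw [this, hw]
      group
    · exact hx _ h1
  | inv x hx =>
    rw [map_inv, inv_v, Finsupp.neg_apply, neg_ne_zero, act_apply] at hr
    obtain ⟨i, w, hi, hw⟩ := hx _ hr
    refine ⟨i, (cocyc cs μ x).w⁻¹ * w, hi, ?_⟩
    have : r = (cocyc cs μ x).w⁻¹ * ((cocyc cs μ x).w⁻¹⁻¹ * r * (cocyc cs μ x).w⁻¹) *
          (cocyc cs μ x).w⁻¹⁻¹ := by group
    rw [this, hw]
    group

/-- If `x` commutes with a lift of `s_i` then the cocycle value is `s_i`-invariant, provided the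
image of `x` commutes with everything. -/
lemma cocyc_inv_of_commute (μ : Artin M →* Multiplicative ℤ) (x y : Artin M) (hxy : x * y = y * x)
    (hx : ∀ w : W, Artin.toCox cs x * w = w * Artin.toCox cs x) (r : W) :
    (cocyc cs μ x).v (Artin.toCox cs y * r * (Artin.toCox cs y)⁻¹) = (cocyc cs μ x).v r := by
  have h := congrArg (fun z => (cocyc cs μ z).v (Artin.toCox cs y * r * (Artin.toCox cs y)⁻¹)) hxy
  simp only [map_mul, mul_v, Finsupp.add_apply, act_apply, cocyc_w] at h
  have h1 : (Artin.toCox cs x)⁻¹ * (Artin.toCox cs y * r * (Artin.toCox cs y)⁻¹) *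
      (Artin.toCox cs x) = Artin.toCox cs y * r * (Artin.toCox cs y)⁻¹ := by
    rw [mul_assoc, ← hx]
    group
  have h2 : (Artin.toCox cs y)⁻¹ * (Artin.toCox cs y * r * (Artin.toCox cs y)⁻¹) *
      Artin.toCox cs y = r := by group
  rw [h1, h2] at h
  linarith

/-- Values on central elements are conjugation invariant. -/
lemma cocyc_central (μ : Artin M →* Multiplicative ℤ) (z : Artin M)
    (hz : z ∈ Subgroup.center (Artin M)) (w r : W) :
    (cocyc cs μ z).v (w * r * w⁻¹) = (cocyc cs μ z).v r := by
  have hz' : ∀ y, z * y = y * z := fun y => ((Subgroup.mem_center_iff.mp hz) y).symm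
  obtain ⟨y, rfl⟩ := Artin.toCox_surjective cs w
  apply cocyc_inv_of_commute cs μ z y (hz' y)
  intro w
  obtain ⟨x, rfl⟩ := Artin.toCox_surjective cs w
  rw [← map_mul, ← map_mul, hz' x]

/-- **Key vanishing**: if `μ` is supported on generators whose reflection class is infinite, then
`μ` kills the centre. -/
theorem hom_center_eq_one (μ : Artin M →* Multiplicative ℤ)
    (hμ : ∀ i, μ (Artin.gen M i) ≠ 1 →
      (Set.range (fun w : W => w * cs.simple i * w⁻¹)).Infinite)
    (z : Artin M) (hz : z ∈ Subgroup.center (Artin M)) : μ z = 1 := by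
  have h0 : (cocyc cs μ z).v = 0 := by
    ext r
    by_contra hr
    obtain ⟨i, w, hi, hw⟩ := cocyc_support cs μ z r hr
    apply hμ i hi
    apply Set.Finite.subset (Finsupp.hasFiniteSupport (cocyc cs μ z).v)
    rintro _ ⟨u, rfl⟩
    have h1 := cocyc_central cs μ z hz (u * w⁻¹) r
    have h2 : u * w⁻¹ * r * (u * w⁻¹)⁻¹ = u * cs.simple i * u⁻¹ := by
      rw [hw]; group
    rw [h2] at h1
    simp only [Function.mem_support]
    rw [h1]
    exact hr
  have h1 := cocyc_total cs μ z
  rw [h0] at h1
  simp only [Finsupp.sum_zero_index] at h1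
  exact Multiplicative.toAdd.injective (by simpa using h1.symm)

end Pool.Agent.Helper92.BM
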