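import Pool.Agent.Helper92.BM.Exchange

set_option autoImplicit false

namespace Pool.Agent.Helper92.BM

open CoxeterSystem

variable {B : Type*}

/-- alternating word of length `k` starting with `i` -/
def aw (i j : B) : ℕ → List B
  | 0 => []
  | (k + 1) => i :: aw j i k

lemma aw_succ (i j : B) (k : ℕ) : aw i j (k + 1) = i :: aw j i k := by
  rw [aw]

@[simp] lemma aw_length (i j : B) (k : ℕ) : (aw i j k).length = k := by
  induction k generalizing i j with
  | zero => simp [aw]
  | succ k ih => simp [aw_succ, ih]

lemma aw_prod {G : Type*} [Monoid G] (f : B → G) (i j : B) (k : ℕ) :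
    ((aw i j k).map f).prod = alt (f i) (f j) k := by
  induction k generalizing i j with
  | zero => simp [aw]
  | succ k ih => rw [aw_succ, List.map_cons, List.prod_cons, ih, alt_succ]

lemma aw_eq_reverse (i j : B) (k : ℕ) : aw j i k = (alternatingWord i j k).reverse := by
  induction k generalizing i j with
  | zero => simp [aw, alternatingWord]
  | succ k ih =>
    rw [aw_succ, alternatingWord_succ, List.concat_eq_append, List.reverse_append, ih j i]
    simp

variable {M : CoxeterMatrix B} [Fintype B] [DecidableEq B]
variable {W : Type*} [Group W] (cs : CoxeterSystem M W)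

lemma wordProd_aw (i j : B) (k : ℕ) : cs.wordProd (aw i j k) = alt (cs.simple i) (cs.simple j) k := by
  rw [CoxeterSystem.wordProd, aw_prod]

lemma isReduced_alternatingWord {i j : B} (hij : i ≠ j) {k : ℕ} (hk : M i j = 0 ∨ k ≤ M i j) :
    cs.IsReduced (alternatingWord i j k) := by
  induction k generalizing i j with
  | zero =>
    unfold CoxeterSystem.IsReduced
    simp [alternatingWord]
  | succ k ih =>
    have hk' : M j i = 0 ∨ k + 1 ≤ M j i := by rwa [M.symmetric j i]
    have h1 : cs.IsReduced (alternatingWord j i k) := ih hij.symm (by omega)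
    unfold CoxeterSystem.IsReduced at h1 ⊢
    rw [length_alternatingWord] at h1 ⊢
    rw [alternatingWord_succ, cs.wordProd_concat]
    have h2 : 0 ≤ geo cs (cs.wordProd (alternatingWord j i k)) (ee j) := by
      rw [geo_wordProd, prod_alt_ee]
      have q1 : 0 ≤ qs (cc M j i) (k + 1) := qs_nonneg M hij.symm hk'
      have q2 : 0 ≤ qs (cc M j i) k := qs_nonneg M hij.symm (by omega)
      split_ifs
      · exact add_nonneg (smul_nonneg q1 (ee_nonneg j)) (smul_nonneg q2 (ee_nonneg i))
      · exact add_nonneg (smul_nonneg q1 (ee_nonneg i)) (smul_nonneg q2 (ee_nonneg j))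
    rw [geo_nonneg_iff] at h2
    rcases cs.length_mul_simple (cs.wordProd (alternatingWord j i k)) j with h3 | h3 <;> omega

lemma isReduced_aw {i j : B} (hij : i ≠ j) {k : ℕ} (hk : M i j = 0 ∨ k ≤ M i j) :
    cs.IsReduced (aw i j k) := by
  rw [aw_eq_reverse, cs.isReduced_reverse_iff]
  apply isReduced_alternatingWord cs hij.symm
  rwa [M.symmetric j i]

/-- Two left descents force a dihedral front factor. -/
lemma exists_aw_front (w : W) (k : ℕ) : ∀ (i j : B), i ≠ j → (M i j = 0 ∨ k ≤ M i j) →
    cs.length (cs.simple i * w) < cs.length w → cs.length (cs.simple j * w) < cs.length w →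
    ∃ u : List B, cs.IsReduced (aw i j k ++ u) ∧ cs.wordProd (aw i j k ++ u) = w := by
  induction k with
  | zero =>
    intro i j _ _ _ _
    obtain ⟨ω, h1, h2⟩ := cs.exists_isReduced w
    exact ⟨ω, by simpa [aw] using h1, by simpa [aw] using h2.symm⟩
  | succ k ih =>
    intro i j hij hk hi hj
    have hk' : M j i = 0 ∨ k ≤ M j i := by rw [M.symmetric j i]; omega
    obtain ⟨u, hred, hw⟩ := ih j i hij.symm hk' hj hi
    rw [← hw] at hi
    obtain ⟨p, hp, hpe⟩ := exchange cs (aw j i k ++ u) i hi
    have hl : (aw j i k ++ u).length = cs.length w := by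
      rw [← hw]; exact hred.symm
    have hl2 : ((aw j i k ++ u).eraseIdx p).length + 1 = (aw j i k ++ u).length :=
      List.length_eraseIdx_add_one hp
    by_cases hpk : k ≤ p
    · refine ⟨u.eraseIdx (p - k), ?_, ?_⟩
      · have h1 : aw i j (k + 1) ++ u.eraseIdx (p - k) = i :: ((aw j i k ++ u).eraseIdx p) := by
          rw [List.eraseIdx_append_of_length_le (by simpa using hpk), aw_length, aw_succ,
            List.cons_append]
        rw [h1]
        unfold CoxeterSystem.IsReduced
        rw [cs.wordProd_cons, ← hpe, cs.simple_mul_simple_cancel_left, hw, List.length_cons]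
        omega
      · have h1 : aw i j (k + 1) ++ u.eraseIdx (p - k) = i :: ((aw j i k ++ u).eraseIdx p) := by
          rw [List.eraseIdx_append_of_length_le (by simpa using hpk), aw_length, aw_succ,
            List.cons_append]
        rw [h1, cs.wordProd_cons, ← hpe, cs.simple_mul_simple_cancel_left, hw]
    · exfalso
      have hpk' : p < k := by omega
      have hr := isReduced_aw cs hij hk
      rw [List.eraseIdx_append_of_lt_length (by simpa using hpk'), cs.wordProd_append,
        cs.wordProd_append, ← mul_assoc] at hpe
      have h2 := mul_right_cancel hpe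
      rw [← cs.wordProd_cons, ← aw_succ] at h2
      unfold CoxeterSystem.IsReduced at hr
      rw [h2, aw_length] at hr
      have h3 := cs.length_wordProd_le ((aw j i k).eraseIdx p)
      have h4 := List.length_eraseIdx_add_one (l := aw j i k) (i := p) (by simpa using hpk')
      rw [aw_length] at h4
      omega

/-- **Matsumoto's theorem**. -/
theorem matsumoto {G : Type*} [Group G] (f : B → G)
    (hf : ∀ i j, alt (f i) (f j) (M i j) = alt (f j) (f i) (M i j))
    (ω ω' : List B) (h : cs.IsReduced ω) (h' : cs.IsReduced ω')
    (heq : cs.wordProd ω = cs.wordProd ω') : (ω.map f).prod = (ω'.map f).prod := by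
  induction hn : ω.length using Nat.strong_induction_on generalizing ω ω' with
  | _ n ih =>
  have hlen : ω.length = ω'.length := by
    rw [← h.eq, ← h'.eq, heq]
  -- same first letter
  have same : ∀ (i : B) (α β : List B), cs.IsReduced (i :: α) → cs.IsReduced (i :: β) →
      cs.wordProd (i :: α) = cs.wordProd (i :: β) → (i :: α).length = n →
      ((i :: α).map f).prod = ((i :: β).map f).prod := by
    intro i α β hα hβ hαβ hl
    rw [List.map_cons, List.map_cons, List.prod_cons, List.prod_cons]
    congr 1
    rw [cs.wordProd_cons, cs.wordProd_cons] at hαβ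
    apply ih α.length (by rw [← hl]; simp) α β (by simpa using hα.drop 1)
      (by simpa using hβ.drop 1) (mul_left_cancel hαβ) rfl
  match ω, ω' with
  | [], [] => rfl
  | [], _ :: _ => simp at hlen
  | _ :: _, [] => simp at hlen
  | i :: ω₁, j :: ω₂ =>
    by_cases hij : i = j
    · subst hij
      exact same i ω₁ ω₂ h h' heq hn
    · set w := cs.wordProd (i :: ω₁) with hw
      have hwl : cs.length w = n := by rw [hw, h.eq, hn]
      have hdi : cs.length (cs.simple i * w) < cs.length w := by
        have h1 := cs.length_wordProd_le ω₁
        rw [hwl, hw, cs.wordProd_cons, cs.simple_mul_simple_cancel_left]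
        simp only [List.length_cons] at hn
        omega
      have hdj : cs.length (cs.simple j * w) < cs.length w := by
        have h1 := cs.length_wordProd_le ω₂
        rw [hwl, heq, cs.wordProd_cons, cs.simple_mul_simple_cancel_left]
        simp only [List.length_cons] at hn hlen
        omega
      have h0 : M i j ≠ 0 := by
        intro h0
        obtain ⟨u, hu1, hu2⟩ := exists_aw_front cs w (n + 1) i j hij (Or.inl h0) hdi hdj
        have h2 := hu1.eq
        rw [hu2, hwl, List.length_append, aw_length] at h2
        omega
      have h2 := two_le_of_ne M hij h0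
      obtain ⟨u, hu1, hu2⟩ := exists_aw_front cs w (M i j) i j hij (Or.inr le_rfl) hdi hdj
      obtain ⟨v, hv1, hv2⟩ := exists_aw_front cs w (M i j) j i (Ne.symm hij)
        (Or.inr (by rw [M.symmetric j i])) hdj hdi
      obtain ⟨m, hm⟩ : ∃ m, M i j = m + 1 := ⟨M i j - 1, by omega⟩
      have e1 : ((i :: ω₁).map f).prod = ((aw i j (M i j) ++ u).map f).prod := by
        rw [hm, aw_succ, List.cons_append]
        rw [hm, aw_succ, List.cons_append] at hu1 hu2
        exact same i ω₁ _ h hu1 (by rw [hu2]) hn
      have e2 : ((j :: ω₂).map f).prod = ((aw j i (M i j) ++ v).map f).prod := by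
        rw [hm, aw_succ, List.cons_append]
        rw [hm, aw_succ, List.cons_append] at hv1 hv2
        exact same j ω₂ _ h' hv1 (by rw [hv2, ← heq]) (by rw [← hlen, hn])
      have e3 : cs.wordProd u = cs.wordProd v := by
        have h3 := hu2.trans hv2.symm
        rw [cs.wordProd_append, cs.wordProd_append, wordProd_aw, wordProd_aw,
          alt_comm_of_pow (cs.simple_mul_simple_self i) (cs.simple_mul_simple_self j)
            (cs.simple_mul_simple_pow i j)] at h3
        exact mul_left_cancel h3
      have hul : (aw i j (M i j) ++ u).length = n := by rw [← hu1.eq, hu2, hwl]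
      have e4 : (u.map f).prod = (v.map f).prod := by
        apply ih u.length (by rw [List.length_append, aw_length] at hul; omega) u v
          (by simpa using hu1.drop (M i j)) (by simpa using hv1.drop (M i j)) e3 rfl
      rw [e1, e2, List.map_append, List.map_append, List.prod_append, List.prod_append, aw_prod,
        aw_prod, e4, hf i j]

end Pool.Agent.Helper92.BM
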