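import Pool.Agent.Helper92.BM.Words

set_option autoImplicit false

namespace Pool.Agent.Helper92.BM

open SimpleGraph

variable {B : Type*} {M : CoxeterMatrix B} {W : Type*} [Group W] {cs : CoxeterSystem M W}

variable (M) in
/-- The graph of all words with the braid moves of length at least three. -/
def Gr : SimpleGraph (List B) where
  Adj β γ := Br (fun s t => M s t) β γ
  symm := ⟨fun _ _ h => h.symm fun s t => M.symmetric s t⟩
  loopless := ⟨fun _ h => h.ne (fun s => diag_lt s) rfl⟩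

lemma Gr_adj {x y : List B} : (Gr M).Adj x y ↔ Br (fun s t => M s t) x y := Iff.rfl

lemma Gr_cons (a : B) {x y : List B} : (Gr M).Adj (a :: x) (a :: y) ↔ (Gr M).Adj x y := by
  rw [Gr_adj, Gr_adj, br_cons_cons]
  constructor
  · rintro (⟨_, h⟩ | ⟨n, v, h, h', _⟩)
    · exact h
    · exfalso
      have := diag_lt (M := M) a
      omega
  · exact fun h => Or.inl ⟨rfl, h⟩

lemma Gr_append (p : List B) {x y : List B} : (Gr M).Adj (p ++ x) (p ++ y) ↔ (Gr M).Adj x y := by
  induction p with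
  | nil => rfl
  | cons a p ih => rw [List.cons_append, List.cons_append, Gr_cons, ih]

lemma RW_one {x : List B} (h : x ∈ RW cs 1) : x = [] := by
  have h1 := h.1
  unfold CoxeterSystem.IsReduced at h1
  rw [h.2, cs.length_one] at h1
  exact List.length_eq_zero_iff.mp h1.symm

variable (cs) in
/-- The properties proved by induction. -/
structure PP (g : W) : Prop where
  reach : ∀ x ∈ RW cs g, ∀ y ∈ RW cs g, (Gr M).Reachable x y
  med : HasMed (Gr M) (RW cs g)
  iso : ∀ a, Ds cs g a → ∀ x ∈ RW cs (cs.simple a * g), ∀ y ∈ RW cs (cs.simple a * g),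
    (Gr M).dist (a :: x) (a :: y) = (Gr M).dist x y
  gate : ∀ a, Ds cs g a → ∃ π : List B → List B, ∀ y ∈ RW cs g,
    π y ∈ RW cs (cs.simple a * g) ∧ ∀ x ∈ RW cs (cs.simple a * g),
      (Gr M).dist y (a :: x) = (Gr M).dist y (a :: π y) + (Gr M).dist (π y) x

lemma PP_one : PP cs (1 : W) where
  reach x hx y hy := by rw [RW_one hx, RW_one hy]
  med u hu v hv w hw := by
    rw [RW_one hu, RW_one hv, RW_one hw]
    refine ⟨[], ⟨RW_one hu ▸ hu, ?_, ?_, ?_⟩, fun m hm => RW_one hm.1⟩ <;> simp [Btw]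
  iso a ha := by
    unfold Ds at ha; rw [cs.length_one] at ha; omega
  gate a ha := by
    unfold Ds at ha; rw [cs.length_one] at ha; omega

/-- One descent. -/
lemma PP_single {g : W} {a : B} (ha : Ds cs g a) (huniq : ∀ c, Ds cs g c → c = a)
    (ih : PP cs (cs.simple a * g)) : PP cs g := by
  have cov : ∀ x ∈ RW cs g, ∃ x', x = a :: x' ∧ x' ∈ RW cs (cs.simple a * g) := by
    intro x hx
    rcases mem_RW_cases hx with ⟨_, h⟩ | ⟨c, x', rfl, hc, hx'⟩
    · exfalso
      rw [h] at ha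
      unfold Ds at ha; rw [cs.length_one] at ha; omega
    · obtain rfl := huniq c hc
      exact ⟨x', rfl, hx'⟩
  have mm : ∀ x' ∈ RW cs (cs.simple a * g), a :: x' ∈ RW cs g := fun x' hx' =>
    cons_mem_RW.mpr ⟨ha, hx'⟩
  have key : ∀ x ∈ RW cs g, ∀ y ∈ RW cs g, (Gr M).Reachable x y ∧
      (Gr M).dist x y = (Gr M).dist x.tail y.tail := by
    intro x hx y hy
    refine dist_eq_of (RW cs g) (fun x y => (Gr M).dist x.tail y.tail)
      (fun x hx y h => RW_closed hx h) ?_ ?_ ?_ hx hy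
    · intro x _
      exact (Gr M).dist_self
    · intro x hx y hy y' hadj
      obtain ⟨x', rfl, hx'⟩ := cov x hx
      obtain ⟨y₁, rfl, hy₁⟩ := cov y hy
      obtain ⟨y₂, rfl, hy₂⟩ := cov y' (RW_closed hy hadj)
      exact dist_adj_le (ih.reach x' hx' y₁ hy₁) ((Gr_cons a).mp hadj)
    · intro x hx y hy hne
      obtain ⟨x', rfl, hx'⟩ := cov x hx
      obtain ⟨y₁, rfl, hy₁⟩ := cov y hy
      obtain ⟨y', hadj, hd⟩ := exists_adj_dist (ih.reach x' hx' y₁ hy₁)
        (fun h => hne (by rw [h]))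
      exact ⟨a :: y', (Gr_cons a).mpr hadj, hd⟩
  have iso : ∀ x ∈ RW cs (cs.simple a * g), ∀ y ∈ RW cs (cs.simple a * g),
      (Gr M).dist (a :: x) (a :: y) = (Gr M).dist x y := fun x hx y hy =>
    (key _ (mm x hx) _ (mm y hy)).2
  refine ⟨fun x hx y hy => (key x hx y hy).1, ?_, ?_, ?_⟩
  · intro u hu v hv w hw
    obtain ⟨u, rfl, hu'⟩ := cov u hu
    obtain ⟨v, rfl, hv'⟩ := cov v hv
    obtain ⟨w, rfl, hw'⟩ := cov w hw
    obtain ⟨m, ⟨hm, h1, h2, h3⟩, hun⟩ := ih.med u hu' v hv' w hw'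
    refine ⟨a :: m, ⟨mm m hm, ?_, ?_, ?_⟩, ?_⟩
    · unfold Btw at *; rwa [iso _ hu' _ hm, iso _ hm _ hv', iso _ hu' _ hv']
    · unfold Btw at *; rwa [iso _ hv' _ hm, iso _ hm _ hw', iso _ hv' _ hw']
    · unfold Btw at *; rwa [iso _ hu' _ hm, iso _ hm _ hw', iso _ hu' _ hw']
    · rintro m' ⟨hm', k1, k2, k3⟩
      obtain ⟨n, rfl, hn⟩ := cov m' hm'
      rw [hun n ⟨hn, ?_, ?_, ?_⟩]
      · unfold Btw at *; rwa [iso _ hu' _ hn, iso _ hn _ hv', iso _ hu' _ hv'] at k1
      · unfold Btw at *; rwa [iso _ hv' _ hn, iso _ hn _ hw', iso _ hv' _ hw'] at k2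
      · unfold Btw at *; rwa [iso _ hu' _ hn, iso _ hn _ hw', iso _ hu' _ hw'] at k3
  · intro c hc
    obtain rfl := huniq c hc
    exact iso
  · intro c hc
    obtain rfl := huniq c hc
    refine ⟨List.tail, fun y hy => ?_⟩
    obtain ⟨y', rfl, hy'⟩ := cov y hy
    refine ⟨hy', fun x hx => ?_⟩
    rw [iso y' hy' x hx]
    simp

/-- Distances behind an alternating prefix. -/
lemma iso_prefix {v : W} : ∀ (n : ℕ) (x y : B),
    cs.length (el cs x y (n + 1) v) = n + 1 + cs.length v →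
    (∀ h : W, cs.length h ≤ cs.length (el cs x y (n + 1) v) → PP cs h) →
    ∀ z ∈ RW cs (cs.simple (lst x y n) * v), ∀ z' ∈ RW cs (cs.simple (lst x y n) * v),
      (Gr M).dist (aw x y n ++ z) (aw x y n ++ z') = (Gr M).dist z z' := by
  intro n
  induction n with
  | zero => intro x y _ _ z _ z' _; simp [aw]
  | succ n ih =>
    intro x y hl hP z hz z' hz'
    rw [lst_succ] at hz hz'
    have h1 := el_len hl
    rw [aw_succ, List.cons_append, List.cons_append,
      (hP _ le_rfl).iso x (el_Ds hl) _ (by rw [el_succ']; exact cover_mem n y x h1 z hz) _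
        (by rw [el_succ']; exact cover_mem n y x h1 z' hz')]
    exact ih y x h1 (fun h hh => hP h (by omega)) z hz z' hz'

/-- The basic facts around two descents. -/
structure Two (cs : CoxeterSystem M W) (g v : W) (a b : B) (n : ℕ) : Prop where
  hab : a ≠ b
  m : M a b = n + 3
  ea : g = el cs a b (n + 3) v
  eb : g = el cs b a (n + 3) v
  len : cs.length g = n + 3 + cs.length v

lemma Two.swap {g v : W} {a b : B} {n : ℕ} (T : Two cs g v a b n) : Two cs g v b a n :=
  ⟨T.hab.symm, by rw [M.symmetric]; exact T.m, T.eb, T.ea, T.len⟩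

namespace Two

variable {g v : W} {a b : B} {n : ℕ}

lemma lenA (T : Two cs g v a b n) : cs.length (el cs a b (n + 3) v) = n + 3 + cs.length v := by
  rw [← T.ea]; exact T.len

lemma da (T : Two cs g v a b n) : Ds cs g a := by
  rw [T.ea]; exact el_Ds T.lenA

lemma eg (T : Two cs g v a b n) : cs.simple a * g = el cs b a (n + 2) v := by
  rw [T.ea, el_succ']

lemma lenB (T : Two cs g v a b n) : cs.length (el cs b a (n + 2) v) = n + 2 + cs.length v :=
  el_len T.lenA

lemma dab (T : Two cs g v a b n) : Ds cs (cs.simple a * g) b := by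
  rw [T.eg]; exact el_Ds T.lenB

lemma lenx (T : Two cs g v a b n) (x y : B) (k : ℕ)
    (h : ∃ j, (x = lst a b j ∧ y = lst b a j) ∧ j + k = n + 3) :
    cs.length (el cs x y k v) = k + cs.length v := by
  obtain ⟨j, ⟨rfl, rfl⟩, hj⟩ := h
  have key : ∀ (j k : ℕ) (a b : B), cs.length (el cs a b (j + k) v) = j + k + cs.length v →
      cs.length (el cs (lst a b j) (lst b a j) k v) = k + cs.length v := by
    intro j
    induction j with
    | zero => intro k a b h; simpa [lst] using h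
    | succ j ih =>
      intro k a b h
      rw [lst_succ, lst_succ]
      rw [show j + 1 + k = j + k + 1 by ring] at h
      exact ih k b a (el_len h)
  exact key j k a b (by rw [hj]; exact T.lenA)

/-- The last letter of the prefix and its length. -/
lemma len1 (T : Two cs g v a b n) :
    cs.length (cs.simple (lst a b (n + 2)) * v) = cs.length v + 1 := by
  have := T.lenx (lst a b (n + 2)) (lst b a (n + 2)) 1 ⟨n + 2, ⟨rfl, rfl⟩, by omega⟩
  rw [el_one] at this
  omega

lemma d1 (T : Two cs g v a b n) :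
    Ds cs (cs.simple (lst a b (n + 2)) * v) (lst a b (n + 2)) := by
  unfold Ds
  rw [cs.simple_mul_simple_cancel_left, T.len1]
  omega

lemma memH (T : Two cs g v a b n) {h : List B} (hh : h ∈ RW cs v) :
    lst a b (n + 2) :: h ∈ RW cs (cs.simple (lst a b (n + 2)) * v) := by
  rw [cons_mem_RW]
  exact ⟨T.d1, by rwa [cs.simple_mul_simple_cancel_left]⟩

lemma mem₁' (T : Two cs g v a b n) {x : List B}
    (hx : x ∈ RW cs (cs.simple (lst a b (n + 2)) * v)) :
    aw b a (n + 1) ++ x ∈ RW cs (cs.simple a * g) := by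
  rw [T.eg]
  exact cover_mem (n + 1) b a T.lenB x (by rw [lst_succ] at hx; exact hx)

lemma mem₁ (T : Two cs g v a b n) {x : List B}
    (hx : x ∈ RW cs (cs.simple (lst a b (n + 2)) * v)) : aw a b (n + 2) ++ x ∈ RW cs g := by
  rw [aw_succ, List.cons_append, cons_mem_RW]
  exact ⟨T.da, T.mem₁' hx⟩

variable [Fintype B] [DecidableEq B]

lemma desc (hM : NoTwo M) (T : Two cs g v a b n) {c : B} (hc : Ds cs g c) : c = a ∨ c = b := by
  by_cases hca : c = a
  · exact Or.inl hca
  · exact Or.inr (no_third hM _ g le_rfl a c b (Ne.symm hca) T.da hc T.dab).symm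

lemma cov' (hM : NoTwo M) (T : Two cs g v a b n) {x : List B}
    (hx : x ∈ RW cs (cs.simple a * g)) :
    ∃ y ∈ RW cs (cs.simple (lst a b (n + 2)) * v), x = aw b a (n + 1) ++ y := by
  rw [T.eg] at hx
  obtain ⟨z, hz, rfl⟩ := cover hM (n + 1) b a T.lenB (el_nDs T.lenA) x hx
  exact ⟨z, by rw [lst_succ]; exact hz, rfl⟩

lemma cov (hM : NoTwo M) (T : Two cs g v a b n) {x : List B} (hx : x ∈ RW cs g) :
    (∃ y ∈ RW cs (cs.simple (lst a b (n + 2)) * v), x = aw a b (n + 2) ++ y) ∨
      (∃ y ∈ RW cs (cs.simple (lst b a (n + 2)) * v), x = aw b a (n + 2) ++ y) := by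
  rcases mem_RW_cases hx with ⟨_, h⟩ | ⟨c, x', rfl, hc, hx'⟩
  · exfalso
    have := T.da
    unfold Ds at this
    rw [h, cs.length_one] at this
    omega
  · rcases T.desc hM hc with rfl | rfl
    · obtain ⟨y, hy, rfl⟩ := T.cov' hM hx'
      exact Or.inl ⟨y, hy, by rw [aw_succ]; rfl⟩
    · obtain ⟨y, hy, rfl⟩ := T.swap.cov' hM hx'
      exact Or.inr ⟨y, hy, by rw [aw_succ]; rfl⟩

omit [Fintype B] [DecidableEq B] in
lemma adj₁₂ (T : Two cs g v a b n) {x y : List B}
    (hx : x ∈ RW cs (cs.simple (lst a b (n + 2)) * v)) :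
    (Gr M).Adj (aw a b (n + 2) ++ x) (aw b a (n + 2) ++ y) ↔
      ∃ h ∈ RW cs v, x = lst a b (n + 2) :: h ∧ y = lst b a (n + 2) :: h := by
  rw [Gr_adj, aw_succ a b (n + 1), aw_succ b a (n + 1), List.cons_append, List.cons_append,
    br_cons_cons]
  constructor
  · rintro (⟨h, _⟩ | ⟨k, h, hk, _, h1, h2⟩)
    · exact absurd h T.hab
    · have hkn : k = n + 2 := by
        have := T.m
        omega
      subst hkn
      rw [aw_snoc b a (n + 1), List.append_assoc, List.append_cancel_left_eq] at h1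
      rw [aw_snoc a b (n + 1), List.append_assoc, List.append_cancel_left_eq] at h2
      rw [← lst_succ a b] at h1
      rw [← lst_succ b a] at h2
      subst h1 h2
      refine ⟨h, ?_, rfl, rfl⟩
      have := (cons_mem_RW.mp hx).2
      rwa [cs.simple_mul_simple_cancel_left] at this
  · rintro ⟨h, _, rfl, rfl⟩
    refine Or.inr ⟨n + 2, h, T.m, by omega, ?_, ?_⟩
    · rw [aw_snoc b a (n + 1), lst_succ a b (n + 1)]; simp
    · rw [aw_snoc a b (n + 1), lst_succ b a (n + 1)]; simp

end Two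

variable [Fintype B] [DecidableEq B]

lemma exists_Two (hM : NoTwo M) {g : W} {a b : B} (hab : a ≠ b) (ha : Ds cs g a)
    (hb : Ds cs g b) : ∃ v n, Two cs g v a b n := by
  obtain ⟨n, v, h1, h2, h3, h4⟩ := two_desc hM hab ha hb
  exact ⟨v, n, hab, h1, h2, h3, h4⟩

lemma exists_amalgam (hM : NoTwo M) {g v : W} {a b : B} {n : ℕ} (T : Two cs g v a b n)
    (Pa : PP cs (cs.simple (lst a b (n + 2)) * v)) (Pb : PP cs (cs.simple (lst b a (n + 2)) * v)) :
    ∃ π₁ π₂ : List B → List B, Amalgam (Gr M) (RW cs g)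
      (RW cs (cs.simple (lst a b (n + 2)) * v))
      (RW cs (cs.simple (lst b a (n + 2)) * v)) (RW cs v) (fun x => aw a b (n + 2) ++ x)
      (fun x => aw b a (n + 2) ++ x)
      (fun x => lst a b (n + 2) :: x) (fun x => lst b a (n + 2) :: x) π₁ π₂ := by
  obtain ⟨π₁, h₁⟩ := Pa.gate _ T.d1
  obtain ⟨π₂, h₂⟩ := Pb.gate _ T.swap.d1
  have i₁ := Pa.iso _ T.d1
  have i₂ := Pb.iso _ T.swap.d1
  rw [cs.simple_mul_simple_cancel_left] at h₁ h₂ i₁ i₂
  exact ⟨π₁, π₂,
    { cl := fun x hx y h => RW_closed hx h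
      cov := fun x hx => T.cov hM hx
      m₁ := fun y hy => T.mem₁ hy
      m₂ := fun y hy => T.swap.mem₁ hy
      ne := fun x y h => by
        simp only [aw_succ, List.cons_append] at h
        exact T.hab (List.cons.inj h).1
      inj₁ := fun x y h => by simpa using h
      inj₂ := fun x y h => by simpa using h
      a₁ := fun x y => Gr_append _
      a₂ := fun x y => Gr_append _
      a₁₂ := fun x hx y _ => T.adj₁₂ hx
      h₁ := fun h hh => T.memH hh
      h₂ := fun h hh => T.swap.memH hh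
      r₁ := Pa.reach
      r₂ := Pb.reach
      d₁ := fun h hh h' hh' => i₁ h hh h' hh'
      d₂ := fun h hh h' hh' => i₂ h hh h' hh'
      p₁ := h₁
      p₂ := h₂ }⟩

/-- One side of the two-descent case. -/
lemma side (hM : NoTwo M) {g v : W} {a b : B} {n : ℕ} (T : Two cs g v a b n)
    {π₁ π₂ : List B → List B}
    (A : Amalgam (Gr M) (RW cs g) (RW cs (cs.simple (lst a b (n + 2)) * v))
      (RW cs (cs.simple (lst b a (n + 2)) * v)) (RW cs v) (fun x => aw a b (n + 2) ++ x)
      (fun x => aw b a (n + 2) ++ x)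
      (fun x => lst a b (n + 2) :: x) (fun x => lst b a (n + 2) :: x) π₁ π₂)
    (P : ∀ h : W, cs.length h + 1 ≤ cs.length g → PP cs h) :
    (∀ x ∈ RW cs (cs.simple a * g), ∀ y ∈ RW cs (cs.simple a * g),
      (Gr M).dist (a :: x) (a :: y) = (Gr M).dist x y) ∧
    (∃ π : List B → List B, ∀ y ∈ RW cs g,
      π y ∈ RW cs (cs.simple a * g) ∧ ∀ x ∈ RW cs (cs.simple a * g),
      (Gr M).dist y (a :: x) = (Gr M).dist y (a :: π y) + (Gr M).dist (π y) x) := by
  have hlen := T.len
  have hlenB : cs.length (el cs b a (n + 1 + 1) v) = n + 2 + cs.length v := T.lenB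
  have Pi : ∀ x ∈ RW cs (cs.simple (lst a b (n + 2)) * v),
      ∀ y ∈ RW cs (cs.simple (lst a b (n + 2)) * v),
      (Gr M).dist (aw b a (n + 1) ++ x) (aw b a (n + 1) ++ y) = (Gr M).dist x y := by
    rw [lst_succ]
    exact iso_prefix (n + 1) b a T.lenB (fun h hh => P h (by omega))
  have ew : ∀ x : List B, a :: (aw b a (n + 1) ++ x) = aw a b (n + 2) ++ x := fun x => by
    rw [aw_succ a b (n + 1)]; rfl
  have iso : ∀ x ∈ RW cs (cs.simple a * g), ∀ y ∈ RW cs (cs.simple a * g),
      (Gr M).dist (a :: x) (a :: y) = (Gr M).dist x y := by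
    intro x hx y hy
    obtain ⟨x, hx', rfl⟩ := T.cov' hM hx
    obtain ⟨y, hy', rfl⟩ := T.cov' hM hy
    rw [Pi x hx' y hy', ew, ew]
    exact A.dist₁ hx' hy'
  refine ⟨iso, ?_⟩
  have key : ∀ y, ∃ z, y ∈ RW cs g → z ∈ RW cs (cs.simple a * g) ∧
      ∀ x ∈ RW cs (cs.simple a * g),
      (Gr M).dist y (a :: x) = (Gr M).dist y (a :: z) + (Gr M).dist z x := by
    intro y
    by_cases hy : y ∈ RW cs g
    · rcases T.cov hM hy with ⟨y, hy', rfl⟩ | ⟨y, hy', rfl⟩
      · refine ⟨aw b a (n + 1) ++ y, fun _ => ⟨T.mem₁' hy', fun x hx => ?_⟩⟩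
        rw [← ew, iso _ (T.mem₁' hy') x hx]
        simp
      · have hp := T.memH (A.p₂ y hy').1
        refine ⟨aw b a (n + 1) ++ (lst a b (n + 2) :: π₂ y), fun _ => ⟨T.mem₁' hp, fun x hx => ?_⟩⟩
        obtain ⟨x, hx', rfl⟩ := T.cov' hM hx
        rw [Pi _ hp x hx', ew, ew]
        exact A.gate₁ hx' hy'
    · exact ⟨[], fun h => absurd h hy⟩
  choose π hπ using key
  exact ⟨π, hπ⟩

/-- **The median property for reduced words.** -/
theorem PP_all (hM : NoTwo M) : ∀ n : ℕ, ∀ g : W, cs.length g ≤ n → PP cs g := by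
  intro n
  induction n with
  | zero =>
    intro g hg
    have : g = 1 := cs.length_eq_zero_iff.mp (by omega)
    rw [this]
    exact PP_one
  | succ n ih =>
    intro g hg
    by_cases h1 : g = 1
    · rw [h1]; exact PP_one
    obtain ⟨a, ha⟩ := exists_Ds (cs := cs) h1
    have hla := ha.length
    by_cases h2 : ∃ b, Ds cs g b ∧ b ≠ a
    · obtain ⟨b, hb, hba⟩ := h2
      obtain ⟨v, k, T⟩ := exists_Two hM hba.symm ha hb
      have hl := T.len
      have l1 := T.len1
      have l2 := T.swap.len1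
      obtain ⟨π₁, π₂, A⟩ := exists_amalgam hM T (ih _ (by omega)) (ih _ (by omega))
      have sa := side hM T A (fun h hh => ih h (by omega))
      have sb := side hM T.swap A.swap (fun h hh => ih h (by omega))
      refine ⟨fun x hx y hy => A.reach hx hy, A.hasMed (ih _ (by omega)).med (ih _ (by omega)).med,
        ?_, ?_⟩
      · intro c hc
        rcases T.desc hM hc with rfl | rfl
        · exact sa.1
        · exact sb.1
      · intro c hc
        rcases T.desc hM hc with rfl | rfl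
        · exact sa.2
        · exact sb.2
    · push Not at h2
      exact PP_single ha h2 (ih _ (by omega))

end Pool.Agent.Helper92.BM
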