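import Pool.Agent.Helper92.BM.Median

set_option autoImplicit false

namespace Pool.Agent.Helper92.BM

open SimpleGraph

variable {B : Type*} {M : CoxeterMatrix B} {W : Type*} [Group W] {cs : CoxeterSystem M W}
  {E : B → B → Prop}

/-- A braid move for a pair of letters in `E`. -/
def Mv (M : CoxeterMatrix B) (E : B → B → Prop) (β γ : List B) : Prop :=
  ∃ (u v : List B) (s t : B), E s t ∧ β = u ++ aw s t (M s t) ++ v ∧ γ = u ++ aw t s (M s t) ++ v

/-- Admissible sets of pairs. -/
structure Adm (M : CoxeterMatrix B) (E : B → B → Prop) : Prop where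
  symm : ∀ s t, E s t → E t s
  three : ∀ s t, E s t → 3 ≤ M s t

lemma Adm.ne (hE : Adm M E) {s t : B} (h : E s t) : s ≠ t := by
  rintro rfl
  have := hE.three s s h
  rw [M.diagonal] at this
  omega

lemma Mv.symm (hE : Adm M E) {β γ : List B} (h : Mv M E β γ) : Mv M E γ β := by
  obtain ⟨u, v, s, t, h1, h2, h3⟩ := h
  rw [M.symmetric] at h2 h3
  exact ⟨u, v, t, s, hE.symm _ _ h1, h3, h2⟩

lemma Mv.ne (hE : Adm M E) {β γ : List B} (h : Mv M E β γ) : β ≠ γ := by
  obtain ⟨u, v, s, t, h1, h2, h3⟩ := h
  exact Br.ne (m := fun s t => M s t) (fun s => diag_lt s) ⟨u, v, s, t, hE.three _ _ h1, h2, h3⟩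

lemma aw_map {A : Type*} (f : A → B) (s t : A) (n : ℕ) : (aw s t n).map f = aw (f s) (f t) n := by
  induction n generalizing s t with
  | zero => simp [aw]
  | succ n ih => rw [aw_succ, aw_succ, List.map_cons, ih]

open Classical in
/-- Entries of the modified matrix. -/
noncomputable def rmE (M : CoxeterMatrix B) (E : B → B → Prop) (α : List B)
    (i j : {b // b ∈ α}) : ℕ :=
  if i = j then 1 else if E i j then M i j else 0

lemma rmE_self (α : List B) (i : {b // b ∈ α}) : rmE M E α i i = 1 := by
  unfold rmE; rw [if_pos rfl]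

lemma rmE_of (hE : Adm M E) (α : List B) {i j : {b // b ∈ α}} (h : E i j) :
    rmE M E α i j = M i j := by
  have hij : i ≠ j := fun e => hE.ne h (congrArg Subtype.val e)
  unfold rmE; rw [if_neg hij, if_pos h]

lemma rmE_zero (α : List B) {i j : {b // b ∈ α}} (hij : i ≠ j) (h : ¬ E i j) :
    rmE M E α i j = 0 := by
  unfold rmE; rw [if_neg hij, if_neg h]

/-- The Coxeter matrix on the letters of `α` with infinity for the pairs outside `E`. -/
noncomputable def rm (M : CoxeterMatrix B) (E : B → B → Prop) (hE : Adm M E) (α : List B) :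
    CoxeterMatrix {b // b ∈ α} where
  M := Matrix.of (rmE M E α)
  isSymm := by
    ext i j
    change rmE M E α j i = rmE M E α i j
    by_cases h : i = j
    · subst h; rfl
    · by_cases h3 : E i j
      · rw [rmE_of hE α h3, rmE_of hE α (hE.symm _ _ h3), M.symmetric]
      · rw [rmE_zero α h h3, rmE_zero α (Ne.symm h) (fun h4 => h3 (hE.symm _ _ h4))]
  diagonal i := rmE_self α i
  off_diagonal i i' h := by
    change rmE M E α i i' ≠ 1
    by_cases h3 : E i i'
    · rw [rmE_of hE α h3]
      have := hE.three _ _ h3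
      omega
    · rw [rmE_zero α h h3]; norm_num

lemma rm_apply (hE : Adm M E) (α : List B) (i j : {b // b ∈ α}) :
    rm M E hE α i j = rmE M E α i j := rfl

lemma rm_three (hE : Adm M E) (α : List B) {s t : {b // b ∈ α}} (h : 3 ≤ rm M E hE α s t) :
    E s t ∧ rm M E hE α s t = M s t := by
  rw [rm_apply] at h ⊢
  by_cases hst : s = t
  · subst hst
    rw [rmE_self] at h
    omega
  · by_cases h3 : E s t
    · exact ⟨h3, rmE_of hE α h3⟩
    · rw [rmE_zero α hst h3] at h
      omega

lemma rm_noTwo (hE : Adm M E) (α : List B) : NoTwo (rm M E hE α) := by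
  intro s t h
  rw [rm_apply]
  by_cases h3 : E s t
  · exact Or.inl (by rw [rmE_of hE α h3]; exact hE.three _ _ h3)
  · exact Or.inr (rmE_zero α h h3)

/-- The comparison map. -/
noncomputable def cmp (cs : CoxeterSystem M W) (hE : Adm M E) (α : List B) :
    (rm M E hE α).Group →* W :=
  (rm M E hE α).toCoxeterSystem.lift ⟨fun i => cs.simple i, by
    intro i j
    rw [rm_apply]
    by_cases h : i = j
    · subst h; rw [rmE_self, pow_one, cs.simple_mul_simple_self]
    · by_cases h3 : E i j
      · rw [rmE_of hE α h3]; exact cs.simple_mul_simple_pow i j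
      · rw [rmE_zero α h h3, pow_zero]⟩

lemma cmp_wordProd (hE : Adm M E) (α : List B) (x : List {b // b ∈ α}) :
    cmp cs hE α ((rm M E hE α).toCoxeterSystem.wordProd x) = cs.wordProd (x.map Subtype.val) := by
  induction x with
  | nil => simp
  | cons a x ih =>
    rw [CoxeterSystem.wordProd_cons, map_mul, ih, List.map_cons, CoxeterSystem.wordProd_cons]
    congr 1
    exact (rm M E hE α).toCoxeterSystem.lift_apply_simple _ a

lemma reduced_attach (hE : Adm M E) {α : List B} (h : cs.IsReduced α) :
    (rm M E hE α).toCoxeterSystem.IsReduced α.attach := by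
  set cs' := (rm M E hE α).toCoxeterSystem with hcs'
  unfold CoxeterSystem.IsReduced at *
  apply le_antisymm (cs'.length_wordProd_le _)
  obtain ⟨ω, h1, h2⟩ := cs'.exists_isReduced (cs'.wordProd α.attach)
  unfold CoxeterSystem.IsReduced at h1
  have e : cs.wordProd (ω.map Subtype.val) = cs.wordProd α := by
    rw [← cmp_wordProd (cs := cs) hE, ← hcs', ← h2, hcs', cmp_wordProd, List.attach_map_subtype_val]
  have h3 := cs.length_wordProd_le (ω.map Subtype.val)
  rw [e, h, List.length_map] at h3
  rw [h2, h1, List.length_attach]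
  exact h3

/-- A braid move from the image of a word comes from a braid move. -/
lemma mv_lift (hE : Adm M E) (α : List B) (x : List {b // b ∈ α}) (z : List B)
    (h : Mv M E (x.map Subtype.val) z) : ∃ y : List {b // b ∈ α}, z = y.map Subtype.val ∧
      Br (fun s t => rm M E hE α s t) x y := by
  have hinj : Function.Injective (List.map (Subtype.val : {b // b ∈ α} → B)) :=
    List.map_injective_iff.mpr Subtype.val_injective
  obtain ⟨u, v, s, t, hst, hx, hy⟩ := h
  rw [List.map_eq_append_iff] at hx
  obtain ⟨u', v', rfl, hu, rfl⟩ := hx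
  rw [List.map_eq_append_iff] at hu
  obtain ⟨u'', w', rfl, rfl, hw⟩ := hu
  obtain ⟨n, hn⟩ : ∃ n, M s t = n + 2 := ⟨M s t - 2, by have := hE.three _ _ hst; omega⟩
  have hw' := hw
  rw [hn, aw_succ, aw_succ] at hw'
  obtain ⟨s', w2, rfl, rfl, hw2⟩ := List.map_eq_cons_iff.mp hw'
  obtain ⟨t', w3, rfl, rfl, hw3⟩ := List.map_eq_cons_iff.mp hw2
  have e : s' :: t' :: w3 = aw s' t' (M s' t') := by
    apply hinj
    rw [aw_map]
    exact hw
  have e3 : rm M E hE α s' t' = M s' t' := by
    rw [rm_apply]; exact rmE_of hE α hst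
  refine ⟨u'' ++ aw t' s' (M s' t') ++ v', ?_, u'', v', s', t', ?_, ?_, ?_⟩
  · rw [hy, List.map_append, List.map_append, aw_map]
  · show 3 ≤ rm M E hE α s' t'
    rw [e3]; exact hE.three _ _ hst
  · show _ = u'' ++ aw s' t' (rm M E hE α s' t') ++ v'
    rw [e3, e]
  · show _ = u'' ++ aw t' s' (rm M E hE α s' t') ++ v'
    rw [e3]

/-- Braid moves and injective relabelling. -/
lemma br_map (hE : Adm M E) (α : List B) (x y : List {b // b ∈ α}) :
    Br (fun s t => rm M E hE α s t) x y ↔ Mv M E (x.map Subtype.val) (y.map Subtype.val) := by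
  constructor
  · rintro ⟨u, v, s, t, h, rfl, rfl⟩
    obtain ⟨h1, h2⟩ := rm_three hE α h
    refine ⟨u.map Subtype.val, v.map Subtype.val, s, t, h1, ?_, ?_⟩
    · change List.map Subtype.val (u ++ aw s t (rm M E hE α s t) ++ v) = _
      rw [h2, List.map_append, List.map_append, aw_map]
    · change List.map Subtype.val (u ++ aw t s (rm M E hE α s t) ++ v) = _
      rw [h2, List.map_append, List.map_append, aw_map]
  · intro h
    obtain ⟨y', hy, hb⟩ := mv_lift hE α x _ h
    have hinj : Function.Injective (List.map (Subtype.val : {b // b ∈ α} → B)) :=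
      List.map_injective_iff.mpr Subtype.val_injective
    rw [hinj hy]
    exact hb

/-- The braid class in terms of reduced words of the modified system. -/
lemma class_iff (hE : Adm M E) {α : List B} (h : cs.IsReduced α) (β : List B) :
    Relation.ReflTransGen (Mv M E) α β ↔
      ∃ x ∈ RW (rm M E hE α).toCoxeterSystem ((rm M E hE α).toCoxeterSystem.wordProd α.attach),
        β = x.map Subtype.val := by
  classical
  have hα : α.attach ∈ RW (rm M E hE α).toCoxeterSystem
      ((rm M E hE α).toCoxeterSystem.wordProd α.attach) := ⟨reduced_attach hE h, rfl⟩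
  constructor
  · intro hβ
    induction hβ with
    | refl => exact ⟨α.attach, hα, by simp⟩
    | tail _ h2 ih =>
      obtain ⟨x, hx, rfl⟩ := ih
      obtain ⟨y, rfl, hb⟩ := mv_lift hE α x _ h2
      exact ⟨y, RW_closed hx hb, rfl⟩
  · rintro ⟨x, hx, rfl⟩
    have hP := PP_all (cs := (rm M E hE α).toCoxeterSystem) (rm_noTwo hE α) _
      ((rm M E hE α).toCoxeterSystem.wordProd α.attach) le_rfl
    obtain ⟨w⟩ := hP.reach _ hα x hx
    have key : ∀ (a b : List {b // b ∈ α}), (Gr (rm M E hE α)).Walk a b →
        Relation.ReflTransGen (Mv M E) (a.map Subtype.val) (b.map Subtype.val) := by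
      intro a b w
      induction w with
      | nil => exact Relation.ReflTransGen.refl
      | cons hadj _ ih => exact Relation.ReflTransGen.head ((br_map hE α _ _).mp hadj) ih
    have := key _ _ w
    rwa [List.attach_map_subtype_val] at this

/-- The braid class as a type. -/
abbrev Cls (M : CoxeterMatrix B) (E : B → B → Prop) (α : List B) : Type _ :=
  {β : List B // Relation.ReflTransGen (Mv M E) α β}

/-- Distances in a graph on the braid class whose adjacency is the braid move relation. -/
lemma dist_transfer (hE : Adm M E) {α : List B} (h : cs.IsReduced α)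
    (G : SimpleGraph (Cls M E α))
    (hG : ∀ β γ, G.Adj β γ ↔ Mv M E β.1 γ.1) (x y : List {b // b ∈ α})
    (β γ : Cls M E α) (hβ : β.1 = x.map Subtype.val) (hγ : γ.1 = y.map Subtype.val) :
    G.Reachable β γ ∧ G.dist β γ = (Gr (rm M E hE α)).dist x y := by
  classical
  have hinj : Function.Injective (List.map (Subtype.val : {b // b ∈ α} → B)) :=
    List.map_injective_iff.mpr Subtype.val_injective
  have hP := PP_all (cs := (rm M E hE α).toCoxeterSystem) (rm_noTwo hE α) _
      ((rm M E hE α).toCoxeterSystem.wordProd α.attach) le_rfl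
  have hcl := fun β : Cls M E α => (class_iff hE h β.1).mp β.2
  choose pre hpre hpre2 using hcl
  have e := dist_eq_of (G := G) Set.univ (fun β γ => (Gr (rm M E hE α)).dist (pre β) (pre γ))
    (fun _ _ _ _ => trivial) (fun _ _ => (Gr (rm M E hE α)).dist_self) ?_ ?_
    (Set.mem_univ β) (Set.mem_univ γ)
  · have e1 : pre β = x := hinj (by rw [← hpre2, hβ])
    have e2 : pre γ = y := hinj (by rw [← hpre2, hγ])
    rw [← e1, ← e2]
    exact e
  · intro β _ γ _ γ' hadj
    rw [hG, hpre2 γ, hpre2 γ', ← br_map hE] at hadj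
    exact dist_adj_le (hP.reach _ (hpre β) _ (hpre γ)) hadj
  · intro β _ γ _ hne
    have hne' : pre β ≠ pre γ := by
      intro he
      apply hne
      apply Subtype.ext
      rw [hpre2 β, hpre2 γ, he]
    obtain ⟨z, hadj, hd⟩ := exists_adj_dist (hP.reach _ (hpre β) _ (hpre γ)) hne'
    have hz : z ∈ RW (rm M E hE α).toCoxeterSystem
        ((rm M E hE α).toCoxeterSystem.wordProd α.attach) := RW_closed (hpre γ) hadj
    refine ⟨⟨z.map Subtype.val, (class_iff hE h _).mpr ⟨z, hz, rfl⟩⟩, ?_, ?_⟩
    · rw [hG, hpre2 γ, ← br_map hE]; exact hadj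
    · have e3 : pre ⟨z.map Subtype.val, (class_iff hE h _).mpr ⟨z, hz, rfl⟩⟩ = z :=
        hinj (by rw [← hpre2])
      rw [e3]; exact hd

end Pool.Agent.Helper92.BM
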