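import Pool.Agent.Helper92.BM.Matsumoto
import Pool.Agent.Helper92.BM.Amalgam

set_option autoImplicit false

namespace Pool.Agent.Helper92.BM

open SimpleGraph

variable {B : Type*}

/-- A braid move `u (s t s ...) v → u (t s t ...) v` with factors of length `m s t ≥ 3`. -/
def Br (m : B → B → ℕ) (β γ : List B) : Prop :=
  ∃ (u v : List B) (s t : B), 3 ≤ m s t ∧ β = u ++ aw s t (m s t) ++ v ∧
    γ = u ++ aw t s (m s t) ++ v

lemma Br.symm {m : B → B → ℕ} (hm : ∀ s t, m s t = m t s) {β γ : List B} (h : Br m β γ) :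
    Br m γ β := by
  obtain ⟨u, v, s, t, h1, h2, h3⟩ := h
  rw [hm s t] at h1 h2 h3
  exact ⟨u, v, t, s, h1, h3, h2⟩

lemma Br.length_eq {m : B → B → ℕ} {β γ : List B} (h : Br m β γ) : γ.length = β.length := by
  obtain ⟨u, v, s, t, h1, rfl, rfl⟩ := h
  simp

lemma Br.cons {m : B → B → ℕ} {β γ : List B} (h : Br m β γ) (a : B) :
    Br m (a :: β) (a :: γ) := by
  obtain ⟨u, v, s, t, h1, rfl, rfl⟩ := h
  exact ⟨a :: u, v, s, t, h1, by simp, by simp⟩

lemma br_cons_cons {m : B → B → ℕ} {a b : B} {β γ : List B} :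
    Br m (a :: β) (b :: γ) ↔ (a = b ∧ Br m β γ) ∨
      (∃ n v, m a b = n + 1 ∧ 2 ≤ n ∧ β = aw b a n ++ v ∧ γ = aw a b n ++ v) := by
  constructor
  · rintro ⟨u, v, s, t, h1, h2, h3⟩
    rcases u with _ | ⟨c, u⟩
    · obtain ⟨n, hn⟩ : ∃ n, m s t = n + 1 := ⟨m s t - 1, by omega⟩
      rw [hn] at h2 h3
      simp only [List.nil_append, aw_succ, List.cons_append] at h2 h3
      injection h2 with e1 e2
      injection h3 with e3 e4
      subst e1 e3
      exact Or.inr ⟨n, v, hn, by omega, e2, e4⟩
    · simp only [List.cons_append] at h2 h3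
      injection h2 with e1 e2
      injection h3 with e3 e4
      subst e1
      exact Or.inl ⟨e3.symm, u, v, s, t, h1, e2, e4⟩
  · rintro (⟨rfl, h⟩ | ⟨n, v, hn, h2, rfl, rfl⟩)
    · exact h.cons a
    · exact ⟨[], v, a, b, by omega, by rw [hn]; simp [aw_succ], by rw [hn]; simp [aw_succ]⟩

lemma Br.ne {m : B → B → ℕ} (hm : ∀ s, m s s < 3) {β γ : List B} (h : Br m β γ) : β ≠ γ := by
  obtain ⟨u, v, s, t, h1, h2, h3⟩ := h
  rintro rfl
  rw [h2] at h3
  obtain ⟨n, hn⟩ : ∃ n, m s t = n + 1 := ⟨m s t - 1, by omega⟩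
  rw [hn, aw_succ, aw_succ] at h3
  simp only [List.append_assoc, List.cons_append, List.append_cancel_left_eq] at h3
  injection h3 with e1 e2
  subst e1
  have := hm s
  omega

/-- The `n`-th letter of `a b a b ...`. -/
def lst (a b : B) : ℕ → B
  | 0 => a
  | (n + 1) => lst b a n

lemma lst_succ (a b : B) (n : ℕ) : lst a b (n + 1) = lst b a n := by
  rw [lst]

lemma aw_snoc (a b : B) (n : ℕ) : aw a b (n + 1) = aw a b n ++ [lst a b n] := by
  induction n generalizing a b with
  | zero => simp [aw, lst]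
  | succ n ih => rw [aw_succ, ih b a, aw_succ, lst_succ]; rfl

section group

variable {M : CoxeterMatrix B} {W : Type*} [Group W] (cs : CoxeterSystem M W)

/-- Reduced words of `g`. -/
def RW (g : W) : Set (List B) := {ω | cs.IsReduced ω ∧ cs.wordProd ω = g}

/-- Left descent. -/
def Ds (g : W) (a : B) : Prop := cs.length (cs.simple a * g) < cs.length g

/-- The product of an alternating word of length `n` and `v`. -/
def el (a b : B) (n : ℕ) (v : W) : W := cs.wordProd (aw a b n) * v

variable {cs}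

lemma el_zero (a b : B) (v : W) : el cs a b 0 v = v := by
  simp [el, aw]

lemma el_succ (a b : B) (n : ℕ) (v : W) : el cs a b (n + 1) v = cs.simple a * el cs b a n v := by
  unfold el
  rw [aw_succ, cs.wordProd_cons, mul_assoc]

lemma el_succ' (a b : B) (n : ℕ) (v : W) : cs.simple a * el cs a b (n + 1) v = el cs b a n v := by
  rw [el_succ, cs.simple_mul_simple_cancel_left]

lemma len_mul (a : B) (w : W) : cs.length (cs.simple a * w) ≤ cs.length w + 1 := by
  rcases cs.length_simple_mul w a with h | h <;> omega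

lemma el_len_le (a b : B) (n : ℕ) (v : W) : cs.length (el cs a b n v) ≤ n + cs.length v := by
  induction n generalizing a b with
  | zero => rw [el_zero]; omega
  | succ n ih =>
    rw [el_succ]
    have := ih b a
    have := len_mul (cs := cs) a (el cs b a n v)
    omega

lemma el_len {a b : B} {n : ℕ} {v : W} (h : cs.length (el cs a b (n + 1) v) = n + 1 + cs.length v) :
    cs.length (el cs b a n v) = n + cs.length v := by
  have h1 := el_len_le (cs := cs) b a n v
  rw [el_succ] at h
  have := len_mul (cs := cs) a (el cs b a n v)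
  omega

lemma el_Ds {a b : B} {n : ℕ} {v : W} (h : cs.length (el cs a b (n + 1) v) = n + 1 + cs.length v) :
    Ds cs (el cs a b (n + 1) v) a := by
  unfold Ds
  rw [el_succ', el_len h, h]
  omega

lemma el_nDs {a b : B} {n : ℕ} {v : W} (h : cs.length (el cs a b (n + 1) v) = n + 1 + cs.length v) :
    ¬ Ds cs (el cs b a n v) a := by
  unfold Ds
  rw [← el_succ, el_len h, h]
  omega

lemma el_one (a b : B) (v : W) : el cs a b 1 v = cs.simple a * v := by
  rw [el_succ, el_zero]

lemma Ds.length {g : W} {a : B} (h : Ds cs g a) :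
    cs.length (cs.simple a * g) + 1 = cs.length g := by
  rcases cs.length_simple_mul g a with h1 | h1
  · unfold Ds at h; omega
  · exact h1

lemma cons_mem_RW {g : W} {a : B} {ω : List B} :
    a :: ω ∈ RW cs g ↔ Ds cs g a ∧ ω ∈ RW cs (cs.simple a * g) := by
  constructor
  · rintro ⟨h1, h2⟩
    have h3 : cs.wordProd ω = cs.simple a * g := by
      rw [← h2, cs.wordProd_cons, cs.simple_mul_simple_cancel_left]
    have h4 : cs.IsReduced ω := by
      have := h1.drop 1
      simpa using this
    refine ⟨?_, h4, h3⟩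
    unfold Ds
    unfold CoxeterSystem.IsReduced at h1 h4
    rw [← h3, ← h2, h1, h4, List.length_cons]
    omega
  · rintro ⟨h1, h2, h3⟩
    have h4 : cs.wordProd (a :: ω) = g := by
      rw [cs.wordProd_cons, h3, cs.simple_mul_simple_cancel_left]
    refine ⟨?_, h4⟩
    unfold CoxeterSystem.IsReduced at h2 ⊢
    rw [h4, ← h1.length, ← h3, h2, List.length_cons]

lemma mem_RW_cases {g : W} {ω : List B} (h : ω ∈ RW cs g) :
    (ω = [] ∧ g = 1) ∨ ∃ a ω', ω = a :: ω' ∧ Ds cs g a ∧ ω' ∈ RW cs (cs.simple a * g) := by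
  rcases ω with _ | ⟨a, ω'⟩
  · left
    exact ⟨rfl, by rw [← h.2]; simp⟩
  · right
    exact ⟨a, ω', rfl, cons_mem_RW.mp h⟩

lemma RW_nonempty (g : W) : ∃ ω, ω ∈ RW cs g := by
  obtain ⟨ω, h1, h2⟩ := cs.exists_isReduced g
  exact ⟨ω, h1, h2.symm⟩

lemma exists_Ds {g : W} (h : g ≠ 1) : ∃ a, Ds cs g a := by
  obtain ⟨ω, hω⟩ := RW_nonempty (cs := cs) g
  rcases mem_RW_cases hω with ⟨_, h1⟩ | ⟨a, _, _, h1, _⟩
  · exact absurd h1 h
  · exact ⟨a, h1⟩

lemma diag_lt (s : B) : M s s < 3 := by
  rw [M.diagonal]; norm_num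

lemma wordProd_aw_comm (s t : B) :
    cs.wordProd (aw s t (M s t)) = cs.wordProd (aw t s (M s t)) := by
  rw [CoxeterSystem.wordProd, CoxeterSystem.wordProd, aw_prod, aw_prod]
  exact alt_comm_of_pow (cs.simple_mul_simple_self s) (cs.simple_mul_simple_self t)
    (cs.simple_mul_simple_pow s t)

lemma Br.wordProd {β γ : List B} (h : Br (fun s t => M s t) β γ) :
    cs.wordProd γ = cs.wordProd β := by
  obtain ⟨u, v, s, t, h1, rfl, rfl⟩ := h
  simp only [cs.wordProd_append, wordProd_aw_comm (cs := cs) s t]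

lemma RW_closed {g : W} {β γ : List B} (hβ : β ∈ RW cs g) (h : Br (fun s t => M s t) β γ) :
    γ ∈ RW cs g := by
  refine ⟨?_, by rw [h.wordProd (cs := cs), hβ.2]⟩
  have h1 := hβ.1
  unfold CoxeterSystem.IsReduced at *
  rw [h.wordProd (cs := cs), h1, h.length_eq]

end group

section right

variable {M : CoxeterMatrix B} {W : Type*} [Group W] {cs : CoxeterSystem M W}
  [Fintype B] [DecidableEq B]

/-- No commuting pairs. -/
def NoTwo (M : CoxeterMatrix B) : Prop := ∀ s t, s ≠ t → 3 ≤ M s t ∨ M s t = 0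

lemma two_desc (hM : NoTwo M) {g : W} {a b : B} (hab : a ≠ b) (ha : Ds cs g a)
    (hb : Ds cs g b) : ∃ (n : ℕ) (v : W), M a b = n + 3 ∧ g = el cs a b (n + 3) v ∧
      g = el cs b a (n + 3) v ∧ cs.length g = n + 3 + cs.length v := by
  rcases hM a b hab with h3 | h0
  · obtain ⟨n, hn⟩ : ∃ n, M a b = n + 3 := ⟨M a b - 3, by omega⟩
    obtain ⟨u, hu1, hu2⟩ := exists_aw_front cs g (M a b) a b hab (Or.inr le_rfl) ha hb
    have e : g = cs.wordProd (aw a b (M a b)) * cs.wordProd u := by
      rw [← cs.wordProd_append]; exact hu2.symm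
    have h5 : cs.IsReduced u := by
      have := hu1.drop (M a b)
      simpa using this
    refine ⟨n, cs.wordProd u, hn, ?_, ?_, ?_⟩
    · unfold el; rw [← hn]; exact e
    · unfold el; rw [← hn, ← wordProd_aw_comm (cs := cs) a b]; exact e
    · unfold CoxeterSystem.IsReduced at hu1 h5
      rw [← hu2, hu1, h5, List.length_append, aw_length, hn]
  · exfalso
    obtain ⟨u, hu1, hu2⟩ := exists_aw_front cs g (cs.length g + 1) a b hab
      (Or.inl h0) ha hb
    unfold CoxeterSystem.IsReduced at hu1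
    rw [hu2, List.length_append, aw_length] at hu1
    omega

/-- No third letter: after one of two descents only the other one is a descent. -/
lemma no_third (hM : NoTwo M) : ∀ n : ℕ, ∀ g : W, cs.length g ≤ n → ∀ a b c : B, a ≠ b →
    Ds cs g a → Ds cs g b → Ds cs (cs.simple a * g) c → c = b := by
  intro n
  induction n with
  | zero =>
    intro g hg a b c _ ha _ _
    unfold Ds at ha
    omega
  | succ n ih =>
    intro g hg a b c hab ha hb hc
    by_contra hcb
    obtain ⟨k, v, hk, hv1, -, hv3⟩ := two_desc hM hab ha hb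
    have hla := ha.length
    rw [hv1] at hv3
    have hv4 := el_len hv3
    have hv5 := el_len hv4
    have e0 : cs.simple a * g = el cs b a (k + 2) v := by rw [hv1, el_succ']
    have hb' : Ds cs (cs.simple a * g) b := by rw [e0]; exact el_Ds hv4
    have hca : c ≠ a := by
      rintro rfl
      rw [e0] at hc
      exact el_nDs hv3 hc
    obtain ⟨l, y, hl, hy1, -, hy3⟩ := two_desc hM (Ne.symm hcb) hb' hc
    have e1 : cs.simple b * (cs.simple a * g) = el cs a b (k + 1) v := by rw [e0, el_succ']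
    have e2 : cs.simple b * (cs.simple a * g) = el cs c b (l + 2) y := by rw [hy1, el_succ']
    have hlb := hb'.length
    rw [hy1] at hy3
    have hy4 := el_len hy3
    have hy5 := el_len hy4
    have da : Ds cs (cs.simple b * (cs.simple a * g)) a := by rw [e1]; exact el_Ds hv5
    have dc : Ds cs (cs.simple b * (cs.simple a * g)) c := by rw [e2]; exact el_Ds hy4
    have db : Ds cs (cs.simple c * (cs.simple b * (cs.simple a * g))) b := by
      rw [e2, el_succ']; exact el_Ds hy5
    exact hab (ih _ (by omega) c a b hca dc da db).symm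

/-- Only one descent. -/
lemma only_one (hM : NoTwo M) {h : W} {x y c : B} (hx : Ds cs h x) (hy : Ds cs (cs.simple x * h) y)
    (hn : ¬ Ds cs h y) (hc : Ds cs h c) : c = x := by
  by_contra hcx
  have := no_third hM _ h le_rfl x c y (Ne.symm hcx) hx hc hy
  subst this
  exact hn hc

/-- The reduced words of a dihedral translate. -/
lemma cover (hM : NoTwo M) {v : W} : ∀ (n : ℕ) (x y : B),
    cs.length (el cs x y (n + 1) v) = n + 1 + cs.length v → ¬ Ds cs (el cs x y (n + 1) v) y →
    ∀ w ∈ RW cs (el cs x y (n + 1) v), ∃ z ∈ RW cs (cs.simple (lst x y n) * v),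
      w = aw x y n ++ z := by
  intro n
  induction n with
  | zero =>
    intro x y _ _ w hw
    rw [el_one] at hw
    exact ⟨w, hw, by simp [aw]⟩
  | succ n ih =>
    intro x y hl hn w hw
    have h1 := el_Ds hl
    rcases mem_RW_cases hw with ⟨_, h⟩ | ⟨c, w', rfl, hc, hw'⟩
    · exfalso
      rw [h, cs.length_one] at hl
      omega
    · have h2 : Ds cs (cs.simple x * el cs x y (n + 1 + 1) v) y := by
        rw [el_succ']; exact el_Ds (el_len hl)
      obtain rfl := only_one hM h1 h2 hn hc
      rw [el_succ'] at hw'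
      obtain ⟨z, hz, rfl⟩ := ih y c (el_len hl) (el_nDs hl) w' hw'
      exact ⟨z, by rw [lst_succ]; exact hz, by rw [aw_succ]; rfl⟩

omit [Fintype B] [DecidableEq B] in
lemma cover_mem {v : W} : ∀ (n : ℕ) (x y : B),
    cs.length (el cs x y (n + 1) v) = n + 1 + cs.length v →
    ∀ z ∈ RW cs (cs.simple (lst x y n) * v), aw x y n ++ z ∈ RW cs (el cs x y (n + 1) v) := by
  intro n
  induction n with
  | zero =>
    intro x y _ z hz
    rw [el_one]
    simpa [aw, lst] using hz
  | succ n ih =>
    intro x y hl z hz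
    rw [aw_succ, List.cons_append, cons_mem_RW]
    refine ⟨el_Ds hl, ?_⟩
    rw [el_succ']
    exact ih y x (el_len hl) z (by rw [lst_succ] at hz; exact hz)

end right

end Pool.Agent.Helper92.BM
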